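import Pool.Agent.H49.SW.Stm

set_option autoImplicit false

/-!
# Codes with short words, R8: two linear forms are impossible
-/

namespace H57.SW

open Finset MvPolynomial Pool.Agent.H49.SW
open Pool.Agent.H72.OF (os)

private lemma hom1 {α : Type} {a : MvPolynomial α ℤ} (h : a.totalDegree ≤ 1)
    (h0 : constantCoeff a = 0) : a.IsHomogeneous 1 := by
  intro d hd
  have h1 : (d.sum fun _ e => e) ≤ 1 := (le_totalDegree (mem_support_iff.2 hd)).trans h
  have h2 : d ≠ 0 := by
    rintro rfl
    exact hd h0
  have h3 : Finsupp.weight (1 : α → ℕ) d = d.sum fun _ e => e := by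
    rw [Finsupp.weight_apply]
    simp
  rw [h3]
  refine le_antisymm h1 (Nat.one_le_iff_ne_zero.2 fun h4 => h2 ?_)
  ext x
  by_contra hx
  have h5 : x ∈ d.support := Finsupp.mem_support_iff.2 hx
  have h6 : d x ≤ d.sum fun _ e => e :=
    Finset.single_le_sum (f := fun y => d y) (fun _ _ => Nat.zero_le _) h5
  rw [h4] at h6
  exact hx (Nat.le_zero.1 h6)

theorem two : STwo := by
  intro α _ _ a b t ht ha hb ha0 hb0 hpa hpb hco
  have hA := hom1 ha ha0
  have hB := hom1 hb hb0
  have hAB : (a * b).IsHomogeneous 2 := hA.mul hB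
  have hS : (∑ x : α, (X x : MvPolynomial α ℤ)).IsHomogeneous 1 :=
    IsHomogeneous.sum _ _ _ fun x _ => isHomogeneous_X _ x
  have hSAB : ((∑ x : α, (X x : MvPolynomial α ℤ)) * (a * b)).IsHomogeneous 3 := hS.mul hAB
  have hle : ∀ m, coeff m (a * b) ≤ 0 := by
    intro m
    by_cases hm : Finsupp.weight (1 : α → ℕ) m = 2
    · have h1 := hco m
      have h2 : coeff m a = 0 := by
        by_contra h
        have := hA h
        omega
      have h3 : coeff m b = 0 := by
        by_contra h
        have := hB h
        omega
      have h4 : coeff m ((∑ x : α, (X x : MvPolynomial α ℤ)) * (a * b)) = 0 := by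
        by_contra h
        have := hSAB h
        omega
      have h5 : a + b - os α * (a * b) =
          a + b - a * b + (∑ x : α, (X x : MvPolynomial α ℤ)) * (a * b) := by
        unfold os
        ring
      rw [h5, coeff_add, coeff_sub, coeff_add, h2, h3, h4] at h1
      linarith
    · have h1 : coeff m (a * b) = 0 := by
        by_contra h
        exact hm (hAB h)
      exact h1.le
  have h1 : evt t (a * b) ≤ 0 := by
    unfold evt
    rw [eval_eq]
    refine Finset.sum_nonpos fun m _ => mul_nonpos_of_nonpos_of_nonneg (hle m)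
      (Finset.prod_nonneg fun x _ => by positivity)
  have h2 : evt t (a * b) = evt t a * evt t b := by
    unfold evt
    rw [map_mul]
  rw [h2] at h1
  exact absurd (mul_pos hpa hpb) (not_lt.2 h1)

end H57.SW
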